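import Pool.Agent.Helper90.MZ.StmtsA

set_option autoImplicit false

/-! MP_79eb7e_lc, full answer: chains of strongly regular extensions (CHN). -/

namespace Pool.Agent.Helper90.MZ

open Pool.Agent.Helper90.TS

theorem chn_cons {V G : Type} [Group G] [MulAction G V] {X : Ctx V G} {M M1 N u : Set V}
    {p0 : Ty V} {k : ℕ} {K : ℕ → Set V} {p : ℕ → Ty V} (hM : Mdl X M) (hMN : M ⊆ N)
    (hp0 : SR X p0) (hp0A : p0.A = M) (hM1 : Atm X (M ∪ Set.range p0.z) M1)
    (h : Chn X M1 N u k K p) :
    Chn X M N u (k + 1) (fun n => Nat.casesOn n M K) (fun n => Nat.casesOn n p0 p) := by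
  refine ⟨rfl, ?_, ?_, ?_, ?_, ?_⟩
  · intro i hi
    rcases i with _ | i
    · exact hM
    · exact h.mdl i (by omega)
  · intro i hi
    rcases i with _ | i
    · exact hMN
    · exact h.sub i (by omega)
  · intro i hi
    rcases i with _ | i
    · refine ⟨hp0, hp0A, ?_⟩
      change Set.range p0.z ⊆ K 0
      rw [h.zero]
      exact Set.subset_union_right.trans hM1.2.1
    · exact h.sr i (by omega)
  · intro i hi
    rcases i with _ | i
    · change Atm X (M ∪ Set.range p0.z) (K 0)
      rw [h.zero]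
      exact hM1
    · exact h.atm i (by omega)
  · exact h.last

theorem chn_ind (hSRX : ST_SRX) (hUSEV : ST_USEV) (hPRIM : ST_PRIM) (V G : Type) [Group G]
    [MulAction G V] [Nonempty V] (X : Ctx V G) (N : Set V) (hN : Mdl X N) (m : ℕ)
    (c : Fin m → V) (hc : Set.range c ⊆ N) (α : Ordinal.{0}) :
    ∀ M : Set V, Mdl X M → M ⊆ N → X.rk M c = α →
      ∃ k K p, Chn X M N (Set.range c) k K p := by
  induction α using WellFoundedLT.induction with
  | ind α ih =>
    intro M hM hMN hα
    by_cases hcM : Set.range c ⊆ M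
    · obtain ⟨v⟩ := ‹Nonempty V›
      refine ⟨0, fun _ => M, fun _ => ⟨∅, ∅, fun _ => v⟩, rfl, fun _ _ => hM, fun _ _ => hMN,
        fun i hi => absurd hi (Nat.not_lt_zero i), fun i hi => absurd hi (Nat.not_lt_zero i), hcM⟩
    · obtain ⟨N0, hN0N, hN0⟩ := hPRIM V G X (M ∪ Set.range c) N hN (Set.union_subset hMN hc)
      have hMN0 : M ⊆ N0 := Set.subset_union_left.trans hN0.2.1
      have hcN0 : Set.range c ⊆ N0 := Set.subset_union_right.trans hN0.2.1
      have hne : M ≠ N0 := by
        intro h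
        rw [← h] at hcN0
        exact hcM hcN0
      obtain ⟨p0, hp0, hp0A, hz0, hz1⟩ := hSRX V G X M N0 hM hN0.1 hMN0 hne
      obtain ⟨M1, hM1N, hM1⟩ := hPRIM V G X (M ∪ Set.range p0.z) N hN
        (Set.union_subset hMN (hz0.trans hN0N))
      have hisl : Isl X (M ∪ Set.range c) p0.z := hN0.2.2 1 p0.z hz0
      have hns : ¬ SI X M (Set.range c) (Set.range p0.z) := by
        intro hs
        exact hz1 (hUSEV V G X M (Set.range c) hM (Set.countable_range c) (Fin 1) p0.z hisl
          (si_symm hM.1 (Set.countable_range c) (Set.countable_range _) hs))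
      have hr1 : X.rk (M ∪ Set.range p0.z) c ≠ X.rk M c := fun h =>
        hns ((rk_si hM.1 (Set.countable_range _)).1 h)
      have hmono := (a_rkb V G X (Fin m) c).2.2.2.1
      have hlt : X.rk M1 c < α := by
        rw [← hα]
        exact lt_of_le_of_lt (hmono _ _ hM1.2.1)
          (lt_of_le_of_ne (hmono _ _ Set.subset_union_left) hr1)
      obtain ⟨k, K, p, h⟩ := ih _ hlt M1 hM1.1 hM1N rfl
      exact ⟨k + 1, _, _, chn_cons hM hMN hp0 hp0A hM1 h⟩

/-- the theorem for nonempty `V` -/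
theorem chn_main (hSRX : ST_SRX) (hUSEV : ST_USEV) (hPRIM : ST_PRIM) (V G : Type) [Group G]
    [MulAction G V] [Nonempty V] (X : Ctx V G) (M N u : Set V) (hM : Mdl X M) (hN : Mdl X N)
    (hMN : M ⊆ N) (hu : u ⊆ N) (hf : u.Finite) : ∃ k K p, Chn X M N u k K p := by
  have : Finite u := hf
  obtain ⟨m, ⟨e⟩⟩ := Finite.exists_equiv_fin u
  have hr : Set.range (fun i : Fin m => ((e.symm i : u) : V)) = u := by
    ext x
    constructor
    · rintro ⟨i, rfl⟩
      exact (e.symm i).2
    · intro hx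
      exact ⟨e ⟨x, hx⟩, by simp⟩
  have h := chn_ind hSRX hUSEV hPRIM V G X N hN m (fun i : Fin m => ((e.symm i : u) : V))
    (by rw [hr]; exact hu) _ M hM hMN rfl
  rwa [hr] at h

end Pool.Agent.Helper90.MZ
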