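import Pool.Agent.Helper90.MZ.StmtsA

set_option autoImplicit false

/-! MP_79eb7e_lc, full answer: isolation (ISLB). -/

namespace Pool.Agent.Helper90.MZ

open Pool.Agent.Helper90.TS

variable {V G : Type} [Group G] [MulAction G V] {X : Ctx V G}

theorem islb_comp {A : Set V} {ι κ : Type} [Finite ι] [Finite κ] {c : ι → V} (h : Isl X A c)
    (σ : κ → ι) : Isl X A (c ∘ σ) := by
  obtain ⟨D, hD, hc, h1⟩ := h
  refine ⟨_, ov_img hD σ, ⟨c, hc, rfl⟩, ?_⟩
  rintro _ ⟨x, hx, rfl⟩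
  exact eqv_comp σ (h1 x hx)

theorem islb_pair {A : Set V} {ι κ : Type} [Finite ι] [Finite κ] (hA : A.Countable) (c : ι → V)
    (c' : κ → V) : Isl X A (Sum.elim c c') ↔ Isl X A c ∧ Isl X (A ∪ Set.range c) c' := by
  constructor
  · rintro ⟨D, hD, hc, h1⟩
    constructor
    · refine ⟨_, ov_ex hD, ⟨c', hc⟩, ?_⟩
      rintro x ⟨y, hy⟩
      obtain ⟨g, hg, he⟩ := h1 _ hy
      refine ⟨g, hg, ?_⟩
      rw [smul_elim] at he
      have := congrArg (fun z => z ∘ Sum.inl) he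
      simpa using this
    · refine ⟨_, ov_sec hD c, hc, ?_⟩
      intro x hx
      obtain ⟨g, hg, he⟩ := h1 _ hx
      rw [smul_elim] at he
      have e1 : g • c = c := by
        have := congrArg (fun z => z ∘ Sum.inl) he
        simpa using this
      have e2 : g • c' = x := by
        have := congrArg (fun z => z ∘ Sum.inr) he
        simpa using this
      exact ⟨g, fx_union.2 ⟨hg, fx_range.2 e1⟩, e2⟩
  · rintro ⟨⟨E, hE, hcE, h1⟩, ⟨D, hD, hcD, h2⟩⟩
    obtain ⟨W, hW, rfl⟩ := a_fsu2 V G X A hA ι κ c D hD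
    refine ⟨_, ov_sub hE hW (Sum.inl : ι → ι ⊕ κ), ⟨hcD, ?_⟩, ?_⟩
    · rw [Sum.elim_comp_inl]
      exact hcE
    · rintro z ⟨hzW, hzE⟩
      obtain ⟨g, hg, he⟩ := h1 _ hzE
      have h3 : g⁻¹ • z ∈ W := hW.2 g⁻¹ (inv_mem hg) z hzW
      have e3 : g⁻¹ • z = Sum.elim c (g⁻¹ • (z ∘ Sum.inr)) := by
        have e4 : z = Sum.elim (g • c) (z ∘ Sum.inr) := by
          rw [he, Sum.elim_comp_inl_inr]
        conv_lhs => rw [e4]
        rw [smul_elim, inv_smul_smul]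
      rw [e3] at h3
      obtain ⟨k, hk, hke⟩ := h2 _ h3
      obtain ⟨hk1, hk2⟩ := fx_union.1 hk
      refine ⟨g * k, mul_mem hg hk1, ?_⟩
      rw [mul_smul, smul_elim, fx_range.1 hk2, hke, smul_elim, smul_inv_smul, he,
        Sum.elim_comp_inl_inr]

theorem islb_tr {A : Set V} {ι : Type} [Finite ι] {c : ι → V} (g : G) (h : Isl X A c) :
    Isl X (tr g A) (g • c) := by
  obtain ⟨D, hD, hc, h1⟩ := h
  have h2 := ov_smul hD g⁻¹
  rw [inv_inv] at h2
  refine ⟨_, h2, ?_, ?_⟩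
  · change g⁻¹ • g • c ∈ D
    rwa [inv_smul_smul]
  · intro x hx
    have h3 := (eqv_tr g).2 (h1 _ hx)
    rwa [smul_inv_smul] at h3

theorem st_ISLB (hM : ST_MDLB) : ST_ISLB := by
  intro V G _ _ X A hA ι _ c
  have h5 : ∀ N : Set V, Mdl X N → A ⊆ N → Isl X A c →
      ∃ c' : ι → V, Set.range c' ⊆ N ∧ Eqv G A c c' := by
    rintro N hN hAN ⟨D, hD, hc, h1⟩
    obtain ⟨x, hx, hxN⟩ := (hM V G X).2.2.2.2.2.2 N hN ι D (ov_mono X hAN hD) ⟨c, hc⟩
    exact ⟨x, hxN, h1 x hx⟩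
  refine ⟨?_, ?_, ?_, ?_, h5, ?_, ?_⟩
  · intro κ _ c'
    exact islb_pair hA c c'
  · intro κ _ c' hi hr
    classical
    let a : {k : κ // c' k ∈ A} → V := fun k => c' k.1
    have ha : Set.range a ⊆ A := by
      rintro _ ⟨k, rfl⟩
      exact k.2
    have hI : Isl X A (Sum.elim c a) := by
      obtain ⟨D, hD, hc, h1⟩ := hi
      refine ⟨_, ov_prod hD (ov_mono X ha (ov_singleton a)), ⟨?_, ?_⟩, ?_⟩
      · rw [Sum.elim_comp_inl]
        exact hc
      · rw [Sum.elim_comp_inr]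
        exact Set.mem_singleton _
      · rintro z ⟨hz1, hz2⟩
        obtain ⟨g, hg, he⟩ := h1 _ hz1
        refine ⟨g, hg, ?_⟩
        rw [Set.mem_singleton_iff] at hz2
        rw [smul_elim, he, fx_smul hg ha, ← hz2, Sum.elim_comp_inl_inr]
    have hex : ∀ k : κ, ∃ s : ι ⊕ {k : κ // c' k ∈ A}, Sum.elim c a s = c' k := by
      intro k
      rcases hr ⟨k, rfl⟩ with h | ⟨i, h⟩
      · exact ⟨Sum.inr ⟨k, h⟩, rfl⟩
      · exact ⟨Sum.inl i, h⟩
    choose σ hσ using hex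
    have e : c' = Sum.elim c a ∘ σ := by
      funext k
      exact (hσ k).symm
    rw [e]
    exact islb_comp hI σ
  · intro g
    constructor
    · intro h
      have := islb_tr g⁻¹ h
      rwa [tr_inv_tr, inv_smul_smul] at this
    · exact islb_tr g
  · rintro ⟨D, hD, hc, h1⟩
    obtain ⟨m, a, E, ha, hE, rfl⟩ := st_FSUP V G X A hA ι D hD
    refine ⟨Set.range a, ha, Set.finite_range a, {x | Sum.elim a x ∈ E}, ?_, hc, h1, ?_⟩
    · have := ov_sec hE a
      rwa [Set.empty_union] at this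
    · have hov : X.Ov (Set.range a) {x | Sum.elim a x ∈ E} := by
        have := ov_sec hE a
        rwa [Set.empty_union] at this
      obtain ⟨b', ⟨g, hg, hgb⟩, hr⟩ := a_ext V G X (Set.range a) A hA ha ι c
      have hb' : b' ∈ {x | Sum.elim a x ∈ E} := by
        rw [← hgb]
        exact hov.2 g hg _ hc
      have h2 := (a_rkb V G X ι c).2.2.2.2.2 A b' (h1 b' hb')
      rw [← rk_si (Set.countable_range a) hA, Set.union_eq_self_of_subset_left ha, ← hr, h2]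
  · intro hMA hi
    obtain ⟨c', hc', g, hg, he⟩ := h5 A hMA le_rfl hi
    have : c = c' := by
      have h6 : c = g⁻¹ • c' := by rw [← he, inv_smul_smul]
      rw [h6, fx_smul (inv_mem hg) hc']
    rw [this]
    exact hc'
  · rintro c' ⟨g, hg, rfl⟩ ⟨D, hD, hc, h1⟩
    refine ⟨D, hD, hD.2 g hg c hc, ?_⟩
    intro x hx
    exact eqv_trans (eqv_symm ⟨g, hg, rfl⟩) (h1 x hx)

end Pool.Agent.Helper90.MZ
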